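import Pool.Agent.Q9.ES.Bwd

set_option autoImplicit false

/-!
# Strips force exponents of zeta
-/

namespace Pool.Agent.Q9.ES

open Complex Filter Topology MeasureTheory Set
open Pool.Agent.H24R2.JP (XX HH Om)
open Pool.Agent.H986R2.DBN (JT XT Ht)
open Pool.Agent.W186.HZ
open Pool.Agent.W186.SN (UB Str pwE)
open Pool.Agent.W186.LH (Ex Ex_of phx expo XT_ne_ev phx_move)
open Pool.Agent.W186.EH (Ex_lim)

/-- the backward direction -/
lemma strB {b x : ℝ} (hb0 : 0 ≤ b) (hb1 : b ≤ 1 / 2) (hx : 0 < x) (h : Str (4 * x) (2 * b)) : Dy b x := by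
  intro r hr0 hr1
  refine Ex_of _ _ (by positivity) fun ε hε => ?_
  obtain ⟨η, hη⟩ : ∃ η : ℝ, η = min (min (1 / 4) (ε / 8)) x := ⟨_, rfl⟩
  have hη0 : 0 < η := by rw [hη]; exact lt_min (lt_min (by norm_num) (by linarith)) hx
  have hη1 : η ≤ 1 / 4 := by rw [hη]; exact (min_le_left _ _).trans (min_le_left _ _)
  have hη2 : η ≤ ε / 8 := by rw [hη]; exact (min_le_left _ _).trans (min_le_right _ _)
  have hη3 : η ≤ x := by rw [hη]; exact min_le_right _ _
  obtain ⟨T1, hT1, hinv⟩ := invubY x (x + η) η b hx (by linarith) hη0 hη1 (by linarith) hb0 hb1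
  obtain ⟨t0, ht0, hstr⟩ := h
  obtain ⟨KH, hKH, hHH⟩ := Pool.Agent.H986R2.K4.hh
  obtain ⟨T3, hT3, hH⟩ := hHH 1 le_rfl
  obtain ⟨T4, hT4, hO⟩ := Om_large (max (max (4 * x / t0 + 1) (x / η + 1)) (max (16 * x) (KH / η)))
  refine ⟨max (max T1 T3) T4, fun T hT => ?_⟩
  have g1 : T1 ≤ T := ((le_max_left _ _).trans (le_max_left _ _)).trans hT
  have g3 : T3 ≤ T := ((le_max_right _ _).trans (le_max_left _ _)).trans hT
  have g4 : T4 ≤ T := (le_max_right _ _).trans hT
  have hOm := hO T g4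
  have hO1 : 4 * x / t0 + 1 ≤ Om T := ((le_max_left _ _).trans (le_max_left _ _)).trans hOm
  have hO2 : x / η + 1 ≤ Om T := ((le_max_right _ _).trans (le_max_left _ _)).trans hOm
  have hO3 : 16 * x ≤ Om T := ((le_max_left _ _).trans (le_max_right _ _)).trans hOm
  have hO4 : KH / η ≤ Om T := ((le_max_right _ _).trans (le_max_right _ _)).trans hOm
  rw [div_le_iff₀ hη0] at hO4
  have hT400 : 400 ≤ T := hT4.trans g4
  have hTp : 0 < T := by linarith
  have hl2 := Real.log_two_lt_d9
  have hl2' := Real.log_two_gt_d9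
  have elog : Real.log (T / 2) = 2 * Om T - Real.log 2 := by
    rw [Real.log_div hTp.ne' (by norm_num)]
    unfold Om
    ring
  have hxη : 0 < x / η := by positivity
  have hxt : 0 < 4 * x / t0 := by positivity
  have hlp : 0 < Real.log (T / 2) := by rw [elog]; linarith
  obtain ⟨t, ht⟩ : ∃ t : ℝ, t = 4 * x / Real.log (T / 2) := ⟨_, rfl⟩
  have htp : 0 < t := by rw [ht]; positivity
  have htt0 : t < t0 := by
    rw [ht, div_lt_iff₀ hlp, elog]
    have : 4 * x = t0 * (4 * x / t0) := by field_simp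
    nlinarith
  have hexp : Real.exp (4 * x / t) = T / 2 := by
    have : 4 * x / t = Real.log (T / 2) := by rw [ht]; field_simp
    rw [this, Real.exp_log (by linarith)]
  have e2 : 2 * (t / 4) * Om T = x * (2 * Om T / Real.log (T / 2)) := by
    rw [ht]; field_simp
  have hx1 : x ≤ 2 * (t / 4) * Om T := by
    rw [e2]
    have : 1 ≤ 2 * Om T / Real.log (T / 2) := by
      rw [le_div_iff₀ hlp, elog]; linarith
    nlinarith
  have hx2 : 2 * (t / 4) * Om T ≤ x + η := by
    rw [e2]
    have h3 : x * (2 * Om T / Real.log (T / 2)) = x + x * (Real.log 2 / Real.log (T / 2)) := by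
      rw [elog]
      rw [elog] at hlp
      field_simp
      ring
    rw [h3]
    have h4 : x * (Real.log 2 / Real.log (T / 2)) ≤ η := by
      rw [← mul_div_assoc, div_le_iff₀ hlp, elog]
      have : x = η * (x / η) := by field_simp
      nlinarith
    linarith
  have hzf : ∀ w : ℂ, b < w.re → T / 2 - 10 ≤ w.im → w.im ≤ 2 * T → XT (t / 4) w ≠ 0 := by
    intro w hw0 hw1 hw2 hw3
    have hz : Ht t (-(2 * I) * w) = 0 := by
      rw [Ht_XT htp.le]
      have e : I * (-(2 * I) * w) / 2 = w := by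
        have : I * (-(2 * I) * w) / 2 = -(I * I) * w := by ring
        rw [this, Complex.I_mul_I]; ring
      rw [e]; exact hw3
    have hzr : (-(2 * I) * w).re = 2 * w.im := by simp
    have hzi : (-(2 * I) * w).im = -(2 * w.re) := by simp
    have h3 := hstr t htp htt0 _ hz (by
      rw [hexp, hzr, abs_of_nonneg (by linarith)]
      linarith)
    rw [hzi, abs_neg, abs_of_pos (by linarith)] at h3
    linarith
  have hXX := hinv T (t / 4) g1 (by linarith) hx1 hx2 hzf r hr0 (by linarith)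
  have hphx := phx_move (x' := 2 * (t / 4) * Om T) (r := r - b) hx hη0.le hx1 hx2 hη3 (by linarith)
  obtain ⟨-, d2, -, d3, -⟩ := hH T (r : ℂ) g3 (by
    rw [Complex.norm_real, Real.norm_eq_abs, abs_of_nonneg (by linarith)]; linarith)
  rw [Complex.ofReal_re] at d3
  have him : 0 < (I * (T : ℂ) + r).im := by simp; linarith
  have hz := Pool.Agent.H24R2.JP.zetaS.1 (I * T + r) him
  rw [add_comm (r : ℂ)] at hXX
  rw [hz, norm_mul] at hXX
  have e5 : (1 / 2 + (I * (T : ℂ) + r)) = ((1 / 2 + r : ℝ) : ℂ) + T * I := by push_cast; ring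
  rw [e5] at hXX
  obtain ⟨Z, hZ⟩ : ∃ Z : ℝ, Z = ‖riemannZeta (((1 / 2 + r : ℝ) : ℂ) + T * I)‖ := ⟨_, rfl⟩
  rw [← hZ] at hXX ⊢
  have hZ0 : 0 ≤ Z := by rw [hZ]; exact norm_nonneg _
  have hHp : 0 < ‖HH (I * T)‖ := by
    have h0 : HH (I * T) ≠ 0 := by
      apply Pool.Agent.H24R2.JP.StirAux.HH_ne
      simpa using hTp
    exact norm_pos_iff.2 h0
  have h8 : Real.exp (Om T * r - KH * 1) * ‖HH (I * T)‖ * Z ≤
      Real.exp (Om T * (b + phx (2 * (t / 4) * Om T) (r - b) + 5 * η)) * ‖HH (I * T)‖ :=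
    (mul_le_mul_of_nonneg_right d3 hZ0).trans hXX
  have h9 : Real.exp (Om T * r - KH * 1) * Z ≤
      Real.exp (Om T * (b + phx (2 * (t / 4) * Om T) (r - b) + 5 * η)) := by
    refine le_of_mul_le_mul_right ?_ hHp
    linarith
  have hLp : 0 < Om T := by linarith
  calc Z = Real.exp (-(Om T * r - KH * 1)) * (Real.exp (Om T * r - KH * 1) * Z) := by
        rw [← mul_assoc, ← Real.exp_add, neg_add_cancel, Real.exp_zero, one_mul]
    _ ≤ Real.exp (-(Om T * r - KH * 1)) *
        Real.exp (Om T * (b + phx (2 * (t / 4) * Om T) (r - b) + 5 * η)) :=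
        mul_le_mul_of_nonneg_left h9 (Real.exp_pos _).le
    _ = Real.exp (-(Om T * r - KH * 1) + Om T * (b + phx (2 * (t / 4) * Om T) (r - b) + 5 * η)) := by
        rw [← Real.exp_add]
    _ ≤ Real.exp (Real.log T * (max (b + x - r) 0 ^ 2 / (4 * x) + ε)) := by
        apply Real.exp_le_exp.2
        have e6 : Real.log T = 2 * Om T := by unfold Om; ring
        rw [e6]
        have h10 : Om T * (b + phx (2 * (t / 4) * Om T) (r - b) + 5 * η) ≤
            Om T * (b + (phx x (r - b) + 2 * η) + 5 * η) :=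
          mul_le_mul_of_nonneg_left (by linarith) hLp.le
        have e7 : x - (r - b) = b + x - r := by ring
        have h11 : Om T * (b + (phx x (r - b) + 2 * η) + 5 * η) =
            Om T * r + 2 * Om T * (max (b + x - r) 0 ^ 2 / (4 * x)) + 7 * (η * Om T) := by
          unfold phx
          rw [e7]
          field_simp
          ring
        have h12 : Om T * (8 * η) ≤ Om T * ε := mul_le_mul_of_nonneg_left (by linarith) hLp.le
        have h13 : 0 < Om T * ε := by positivity
        linarith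
    _ = T ^ (max (b + x - r) 0 ^ 2 / (4 * x) + ε) := by rw [Real.rpow_def_of_pos hTp]

end Pool.Agent.Q9.ES
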