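import Pool.Agent.Q9.ES.Fwd
import Pool.Agent.Q9.ES.Bw2
import Pool.Agent.W186.EH.Fin

set_option autoImplicit false

/-!
# The exact horizon of a strip
-/

namespace Pool.Agent.Q9.ES

open Complex Filter Topology MeasureTheory Set
open Pool.Agent.H24R2.JP (XX HH Om)
open Pool.Agent.H986R2.DBN (JT XT Ht)
open Pool.Agent.W186.HZ
open Pool.Agent.W186.SN (UB Str str_of part3)
open Pool.Agent.W186.LH (Ex LHyp phx Dx phx_move few_iff lh_iff)
open Pool.Agent.W186.EH (Ex_lim Ex_one Ex_interp asy_ge exponents num Cd)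

/-- the condition on zeta -/
def Cy (κ a : ℝ) : Prop := Asy (1 / 2 + (a / 2 + κ / 4)) ∧
  ∀ σ : ℝ, 1 / 2 + a / 2 ≤ σ → σ ≤ 1 → Ex σ (max (a / 2 + κ / 4 - (σ - 1 / 2)) 0 ^ 2 / κ)

lemma str_mono {κ κ' a a' : ℝ} (hκ : κ ≤ κ') (ha : a ≤ a') (h : Str κ a) : Str κ' a' := by
  obtain ⟨t0, ht0, hh⟩ := h
  refine ⟨t0, ht0, fun t h1 h2 z hz hzr => (hh t h1 h2 z hz ?_).trans ha⟩
  exact (Real.exp_le_exp.2 (div_le_div_of_nonneg_right hκ h1.le)).trans hzr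

lemma str_hor {κ : ℝ} (h : Hor κ) : Str κ 0 := by
  obtain ⟨t0, ht0, hh⟩ := h
  refine ⟨t0, ht0, fun t h1 h2 z hz hzr => ?_⟩
  rw [hh t h1 h2 z hz hzr, abs_zero]

lemma dy_of {κ a : ℝ} (h : Cy κ a) : Dy (a / 2) (κ / 4) := by
  intro r hr0 hr1
  have h3 := h.2 (1 / 2 + r) (by linarith) (by linarith)
  have e1 : 1 / 2 + r - 1 / 2 = r := by ring
  have e2 : 4 * (κ / 4) = κ := by ring
  rw [e1] at h3
  rw [e2]
  exact h3

lemma fwd {κ a : ℝ} (hκ : 0 < κ) (ha : 0 < a) (ha1 : a < 1) (h : Cy κ a) {κ' : ℝ} (hκ' : κ < κ') : Str κ' a := by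
  rcases le_or_gt 4 κ with h4 | h4
  · exact str_mono le_rfl ha.le (str_hor (Pool.Agent.W186.HZ.main.1 κ' (by linarith)))
  obtain ⟨x, hx⟩ : ∃ x : ℝ, x = κ / 4 := ⟨_, rfl⟩
  obtain ⟨b, hb⟩ : ∃ b : ℝ, b = a / 2 := ⟨_, rfl⟩
  have hx0 : 0 < x := by rw [hx]; positivity
  have hx1 : x ≤ 1 := by rw [hx]; linarith
  have hb0 : 0 < b := by rw [hb]; linarith
  have hb1 : b < 1 / 2 := by rw [hb]; linarith
  have hD : Dy b x := by rw [hb, hx]; exact dy_of h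
  have hφ := uby hb0.le hb1 hx0 hx1 hD
  obtain ⟨y, hy0, hyx, hct⟩ : ∃ y : ℝ, 0 ≤ y ∧ y ≤ b + x ∧ CT y := by
    rcases lt_or_ge (b + x) (1 / 2) with h5 | h5
    · refine ⟨b + x, by linarith, le_rfl, ct_of_AF (by linarith) h5 ?_⟩
      rw [af_iff (by linarith), hx, hb]
      exact h.1
    · exact ⟨1 / 2, by norm_num, h5, ct_half⟩
  obtain ⟨m, hm⟩ : ∃ m : ℝ, m = (x + κ' / 4) / 2 := ⟨_, rfl⟩
  have hm1 : x < m := by rw [hm, hx]; linarith
  have hm2 : m < κ' / 4 := by rw [hm, hx]; linarith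
  refine str_of (m := m) (by linarith) ha.le hm2 fun X hX => ?_
  obtain ⟨T0, hT0, hf⟩ := fwdY (c := b) hb0.le hx0 hy0 hyx hct hφ hb0 m X hm1 hX
  refine ⟨T0, hT0, fun T τ hT hτ h1 h2 σ hσ0 hσ1 => hf T τ hT hτ h1 h2 σ ?_ ?_ hσ1⟩
  · rw [hb]; exact hσ0.le
  · rw [hb]; exact hσ0.le

lemma bwd {κ a : ℝ} (hκ : 0 < κ) (ha : 0 ≤ a) (ha1 : a ≤ 1) (h : ∀ κ' : ℝ, κ < κ' → Str κ' a) : Cy κ a := by
  refine ⟨?_, ?_⟩
  · intro ε hε
    have h1 := part3 (κ := κ + 2 * ε) (by linarith) ha (h _ (by linarith)) (ε / 2) (by linarith)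
    refine h1.subset ?_
    rintro s ⟨s1, s2⟩
    exact ⟨by linarith, s2⟩
  · intro σ h1 h2
    refine Ex_lim fun η hη => ?_
    obtain ⟨x, hx⟩ : ∃ x : ℝ, x = κ / 4 := ⟨_, rfl⟩
    have hx0 : 0 < x := by rw [hx]; positivity
    obtain ⟨e, he⟩ : ∃ e : ℝ, e = min η x := ⟨_, rfl⟩
    have he0 : 0 < e := by rw [he]; exact lt_min hη hx0
    have he1 : e ≤ η := by rw [he]; exact min_le_left _ _
    have he2 : e ≤ x := by rw [he]; exact min_le_right _ _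
    have hS : Str (4 * (x + e)) (2 * (a / 2)) := by
      have e1 : 2 * (a / 2) = a := by ring
      rw [e1]
      exact h _ (by rw [hx]; linarith)
    have h3 := strB (by linarith) (by linarith) (by linarith : 0 < x + e) hS (σ - 1 / 2) (by linarith) (by linarith)
    have e0 : 1 / 2 + (σ - 1 / 2) = σ := by ring
    rw [e0] at h3
    refine ⟨_, ?_, h3⟩
    have h4 := phx_move (x := x) (x' := x + e) (r := σ - 1 / 2 - a / 2) hx0 he0.le (by linarith) le_rfl he2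
      (by linarith)
    unfold phx at h4
    rw [← hx]
    have e6 : x + e - (σ - 1 / 2 - a / 2) = a / 2 + (x + e) - (σ - 1 / 2) := by ring
    have e7 : x - (σ - 1 / 2 - a / 2) = a / 2 + x - (σ - 1 / 2) := by ring
    rw [e6, e7] at h4
    have e2 : max (a / 2 + (x + e) - (σ - 1 / 2)) 0 ^ 2 / (4 * (x + e)) =
        (max (a / 2 + (x + e) - (σ - 1 / 2)) 0 ^ 2 / (2 * (x + e))) / 2 := by
      field_simp
      ring
    have e3 : max (a / 2 + x - (σ - 1 / 2)) 0 ^ 2 / κ = (max (a / 2 + x - (σ - 1 / 2)) 0 ^ 2 / (2 * x)) / 2 := by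
      have : κ = 4 * x := by rw [hx]; ring
      rw [this]
      field_simp
      ring
    rw [e2, e3]
    linarith

/-- the exact horizon of a strip -/
theorem exactS {κ a : ℝ} (hκ : 0 < κ) (ha : 0 < a) (ha1 : a < 1) : (∀ κ' : ℝ, κ < κ' → Str κ' a) ↔ Cy κ a :=
  ⟨bwd hκ ha.le ha1.le, fun h _ hκ' => fwd hκ ha ha1 h hκ'⟩

/-- the exponents of zeta needed for a strip of half width `a` from those for the real line -/
lemma scale {a : ℝ} (ha : 0 ≤ a) (ha1 : a < 1) : Cy ((27 / 10) * (1 - a)) a := by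
  have hl : 0 < 1 - a := by linarith
  refine ⟨asy_ge (by linarith), fun σ h1 h2 => ?_⟩
  obtain ⟨l, hle⟩ : ∃ l : ℝ, l = 1 - a := ⟨_, rfl⟩
  have ea : a = 1 - l := by rw [hle]; ring
  rw [← hle]
  rw [ea] at h1 ⊢
  rw [← hle] at hl
  obtain ⟨u, hu⟩ : ∃ u : ℝ, u = 1 - σ := ⟨_, rfl⟩
  have hu0 : 0 ≤ u := by rw [hu]; linarith
  have hu1 : u ≤ l / 2 := by rw [hu]; linarith
  have es : σ = 1 - u := by rw [hu]; ring
  rw [es]
  rcases hu0.eq_or_lt with h0 | h0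
  · rw [← h0]
    refine (by simpa using Ex_one : Ex (1 - 0) 0).mono ?_
    positivity
  · have hlp : 0 < u / l := by positivity
    have hl1 : l ≤ 1 := by rw [hle]; linarith
    have hul : u / l ≤ 1 / 2 := by rw [div_le_iff₀ hl]; linarith
    have hul2 : u ≤ u / l := by rw [le_div_iff₀ hl]; nlinarith
    have h3 := num exponents (1 - u / l) (by linarith) (by linarith)
    rw [max_eq_left (by linarith)] at h3
    have h4 := Ex_interp (l := 1 - u / l) (u := 1) (by linarith) (by linarith) le_rfl (by positivity) le_rfl h3 Ex_one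
      (σ := 1 - u) (by linarith) (by linarith)
    refine h4.mono (le_of_eq ?_)
    rw [max_eq_left (by linarith)]
    have e1 : (1 - u - (1 - u / l)) / (1 - (1 - u / l)) = 1 - l := by
      rw [div_eq_iff (by linarith)]
      field_simp
      ring
    rw [e1]
    have e2 : (1 - l) / 2 + 27 / 10 * l / 4 - (1 - u - 1 / 2) = l * (27 / 10 / 4 - (1 - u / l - 1 / 2)) := by
      field_simp
      ring
    rw [e2]
    field_simp
    ring

/-- the unconditional horizon of a strip -/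
theorem unc {a : ℝ} (ha : 0 ≤ a) (ha1 : a < 1) {κ : ℝ} (hκ : 27 / 10 * (1 - a) < κ) : Str κ a := by
  rcases ha.eq_or_lt with h0 | h0
  · rw [← h0] at hκ ⊢
    exact str_hor (Pool.Agent.W186.EH.final.1 κ (by linarith))
  · exact fwd (by nlinarith) h0 ha1 (scale ha ha1) hκ

/-- the Lindelof hypothesis -/
theorem lind (h : LHyp) {κ a : ℝ} (hκ : 0 < κ) (ha : 0 < a) (ha1 : a < 1) :
    (∀ κ' : ℝ, κ < κ' → Str κ' a) ↔ Asy (1 / 2 + (a / 2 + κ / 4)) := by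
  rw [exactS hκ ha ha1]
  refine ⟨fun h1 => h1.1, fun h1 => ⟨h1, fun σ s1 s2 => ?_⟩⟩
  have hE : Ex σ 0 := by
    refine Ex_lim fun η hη => ?_
    refine ⟨_, ?_, (few_iff (by positivity : 0 < 4 * η)).1 (lh_iff.1 h (4 * η) (by positivity)) σ (by linarith) s2⟩
    have h5 : max (4 * η / 4 - (σ - 1 / 2)) 0 ≤ η := max_le (by linarith) hη.le
    have h6 : max (4 * η / 4 - (σ - 1 / 2)) 0 ^ 2 ≤ η ^ 2 := pow_le_pow_left₀ (le_max_right _ _) h5 2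
    rw [div_le_iff₀ (by positivity)]
    nlinarith
  exact hE.mono (by positivity)

theorem main :
    (∀ a : ℝ, 0 ≤ a → a < 1 → ∀ κ : ℝ, 27 / 10 * (1 - a) < κ → Str κ a) ∧
    (∀ c : ℝ, c < 1 / 2 → ∃ κ0 : ℝ, 0 < κ0 ∧ ∀ κ : ℝ, 0 < κ → κ < κ0 → Str κ (1 - c * κ)) ∧
    (∀ κ a : ℝ, 0 < κ → 0 < a → a < 1 → ((∀ κ' : ℝ, κ < κ' → Str κ' a) ↔ Cy κ a)) ∧
    (LHyp → ∀ κ a : ℝ, 0 < κ → 0 < a → a < 1 →
      ((∀ κ' : ℝ, κ < κ' → Str κ' a) ↔ Asy (1 / 2 + (a / 2 + κ / 4)))) ∧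
    ((∃ θ : ℝ, θ < 1 ∧ ∀ s : ℂ, θ < s.re → riemannZeta s ≠ 0) ↔
      ∃ κ a : ℝ, 0 < κ ∧ 0 ≤ a ∧ a < 1 - κ / 2 ∧ Str κ a) :=
  ⟨fun _ ha ha1 _ hκ => unc ha ha1 hκ, Pool.Agent.W186.SN.main.1,
    fun _ _ hκ ha ha1 => exactS hκ ha ha1, fun hL _ _ hκ ha ha1 => lind hL hκ ha ha1,
    Pool.Agent.W186.SN.main.2.2.2⟩

end Pool.Agent.Q9.ES
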