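import Pool.Agent.Q9.ES.Prf
import Pool.Agent.W186.EH.Fw
import Pool.Agent.W186.SN.JL3

/-!
# No zeros of `XT τ` to the right of `b` at height `T` once `2 τ Om T` exceeds the critical value
(after `Pool.Agent.W186.EH.Fw`)
-/

set_option autoImplicit false

namespace Pool.Agent.Q9.ES

open Complex Filter Topology MeasureTheory Set
open Pool.Agent.H24R2.JP (XX HH Om)
open Pool.Agent.H986R2.DBN (JT XT)
open Pool.Agent.W186.HZ
open Pool.Agent.W186.SN (UB jlg)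
open Pool.Agent.W186.LH (phx)
open Pool.Agent.W186.EH (maj gapx juc)

lemma phy_low {b x r : ℝ} (hx : 0 < x) (hr : r ≤ b) : phy b x r = b + x / 2 := by
  unfold phy phx
  rw [max_eq_right (by linarith : r - b ≤ 0), sub_zero, max_eq_left hx.le]
  field_simp
  ring

lemma majy {b x m X M σ r κ : ℝ} (hx : 0 < x) (hm : x < m) (hmM : m ≤ M) (hMX : M ≤ X)
    (hκ0 : 0 ≤ κ) (hκ2 : κ ≤ (m - x) ^ 2 / (4 * X)) (hσ : b ≤ σ) :
    phy b x r - (r - σ) ^ 2 / (2 * M) ≤ σ + M / 2 := by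
  rcases le_total r b with h | h
  · rw [phy_low hx h]
    have : 0 ≤ (r - σ) ^ 2 / (2 * M) := by
      have : 0 < M := by linarith
      positivity
    linarith
  · have h1 := maj (σ := σ - b) (r := r - b) hx hm hmM hMX hκ0 hκ2 (by linarith) (by linarith)
    have e1 : r - b - (σ - b) = r - σ := by ring
    rw [e1] at h1
    unfold phy
    rw [max_eq_left (by linarith : 0 ≤ r - b)]
    linarith

lemma gapy {b x m X M σ r κ a1 : ℝ} (hx : 0 < x) (hm : x < m) (hmM : m ≤ M) (hMX : M ≤ X)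
    (hκ0 : 0 ≤ κ) (hκ2 : κ ≤ (m - x) ^ 2 / (4 * X)) (hκ4 : κ ≤ (m - x) / 2) (ha1 : 0 < a1)
    (hκ1 : κ ≤ a1 ^ 2 / (2 * X)) (hσ : b ≤ σ) (hr : a1 ≤ |r - (σ + M)|) :
    phy b x r - (r - σ) ^ 2 / (2 * M) ≤ σ + M / 2 - κ := by
  rcases le_total r b with h | h
  · rw [phy_low hx h]
    have : 0 ≤ (r - σ) ^ 2 / (2 * M) := by
      have : 0 < M := by linarith
      positivity
    linarith
  · have e2 : r - b - (σ - b + M) = r - (σ + M) := by ring
    have h1 := gapx (σ := σ - b) (r := r - b) hx hm hmM hMX hκ0 hκ2 ha1 hκ1 (by linarith) (by linarith)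
      (by rw [e2]; exact hr)
    have e1 : r - b - (σ - b) = r - σ := by ring
    rw [e1] at h1
    unfold phy
    rw [max_eq_left (by linarith : 0 ≤ r - b)]
    linarith

theorem fwdY {b x y c : ℝ} (hb : 0 ≤ b) (hx : 0 < x) (hy0 : 0 ≤ y) (hyx : y ≤ b + x) (hct : CT y)
    (hφ : UB (phy b x)) (hc : 0 < c) (m X : ℝ) (hm : x < m) (hX : m ≤ X) :
    ∃ T0 : ℝ, 400 ≤ T0 ∧ ∀ T τ : ℝ, T0 ≤ T → 0 < τ → m ≤ 2 * τ * Om T → 2 * τ * Om T ≤ X →
      ∀ σ : ℝ, b ≤ σ → c ≤ σ → σ ≤ 1 / 2 → XT τ (σ + I * T) ≠ 0 := by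
  have hm0 : 0 < m := by linarith
  have hXp : 0 < X := by linarith
  obtain ⟨g, hg⟩ : ∃ g : ℝ, g = (m - x) / 2 := ⟨_, rfl⟩
  have hg0 : 0 < g := by rw [hg]; linarith
  obtain ⟨a1, ha1⟩ : ∃ a1 : ℝ, a1 = min (g / 2) (1 / 2) / 5 * (3 / 4) := ⟨_, rfl⟩
  have ha10 : 0 < a1 := by
    have : 0 < min (g / 2) (1 / 2) := lt_min (by linarith) (by norm_num)
    rw [ha1]; positivity
  have ha11 : a1 ≤ m / 2 := by
    have : min (g / 2) (1 / 2) ≤ g / 2 := min_le_left _ _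
    rw [ha1]; linarith
  obtain ⟨κ, hκ⟩ : ∃ κ : ℝ, κ = min (min (a1 ^ 2 / (2 * X)) ((m - x) ^ 2 / (4 * X))) (min 1 ((m - x) / 2)) :=
    ⟨_, rfl⟩
  have hmx : 0 < m - x := by linarith
  have hκ0 : 0 < κ := by
    rw [hκ]; exact lt_min (lt_min (by positivity) (by positivity)) (lt_min one_pos (by positivity))
  have hκ1 : κ ≤ a1 ^ 2 / (2 * X) := by rw [hκ]; exact (min_le_left _ _).trans (min_le_left _ _)
  have hκ2 : κ ≤ (m - x) ^ 2 / (4 * X) := by rw [hκ]; exact (min_le_left _ _).trans (min_le_right _ _)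
  have hκ3 : κ ≤ 1 := by rw [hκ]; exact (min_le_right _ _).trans (min_le_left _ _)
  have hκ4 : κ ≤ (m - x) / 2 := by rw [hκ]; exact (min_le_right _ _).trans (min_le_right _ _)
  obtain ⟨κ', hκ'⟩ : ∃ κ' : ℝ, κ' = min κ c := ⟨_, rfl⟩
  have hκ'0 : 0 < κ' := by rw [hκ']; exact lt_min hκ0 hc
  have hκ'1 : κ' ≤ κ := by rw [hκ']; exact min_le_left _ _
  have hκ'2 : κ' ≤ c := by rw [hκ']; exact min_le_right _ _
  obtain ⟨δ, hδ⟩ : ∃ δ : ℝ, δ = κ' / 4 := ⟨_, rfl⟩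
  have hδ0 : 0 < δ := by rw [hδ]; positivity
  obtain ⟨T1, hT1, hl⟩ := jlg hy0 hct hφ m X 1 g κ hm0 hX (by norm_num) hg0 hκ0 hκ3 δ hδ0
  obtain ⟨T2, hT2, hu⟩ := juc hφ m X 1 δ hm0 hX (by norm_num) hδ0
  obtain ⟨T4, hT4, hO⟩ := Om_large 1
  refine ⟨max (max T1 T2) T4, hT4.trans (le_max_right _ _), ?_⟩
  intro T τ hT hτ h1 h2 σ hσb hσc hσ1 hz
  have g1 : T1 ≤ T := ((le_max_left _ _).trans (le_max_left _ _)).trans hT
  have g2 : T2 ≤ T := ((le_max_right _ _).trans (le_max_left _ _)).trans hT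
  have g4 : T4 ≤ T := (le_max_right _ _).trans hT
  have hOm := hO T g4
  have hTp : 0 < T := by linarith
  have heq := Pool.Agent.H986R2.DBN.Hnz.norm_JT_eq Pool.Agent.H986R2.DBN.heat Pool.Agent.H24R2.JP.b1 τ T σ hτ hz
  have hσp : 0 < σ := by linarith
  have q1 := hl T τ g1 hτ h1 h2 σ hσp.le (by linarith) (by rw [hg]; linarith) (by
    intro r hr0 hr1
    rw [← ha1] at hr1
    exact gapy hx hm h1 h2 hκ0.le hκ2 hκ4 ha10 hκ1 hσb hr1)
  obtain ⟨L, hL⟩ : ∃ L : ℝ, L = Om T := ⟨_, rfl⟩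
  obtain ⟨α, hα⟩ : ∃ α : ℝ, α = σ / (2 * τ) := ⟨_, rfl⟩
  have hα0 : 0 < α := by rw [hα]; positivity
  have hτα : 2 * τ * α = σ := by rw [hα]; field_simp
  obtain ⟨M, hM⟩ : ∃ M : ℝ, M = 2 * τ * L := ⟨_, rfl⟩
  have hLp : 0 < L := by rw [hL]; linarith
  have hM0 : 0 < M := by rw [hM]; positivity
  rw [← hL] at h1 h2
  rw [← hM] at h1 h2
  have idα : τ * (L + α) ^ 2 = L * (M / 2 + σ + σ ^ 2 / (2 * M)) := by
    rw [hα, hM]
    field_simp
    ring
  have q2 := hu T τ g2 hτ (by rw [← hL, ← hM]; exact h1) (by rw [← hL, ← hM]; exact h2) (-(α : ℂ)) (by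
      rw [Complex.neg_re, Complex.ofReal_re, mul_neg, hτα]; linarith) (τ * (L + α) ^ 2 - κ' * L) (by
      rw [idα]
      have e1 : 0 ≤ σ ^ 2 / (2 * M) := by positivity
      have e2 : κ' * L ≤ σ * L := mul_le_mul_of_nonneg_right (by linarith) hLp.le
      have e3 : 0 ≤ L * (M / 2 + σ ^ 2 / (2 * M)) := by positivity
      linarith) (by
      intro r hr0
      rw [Complex.neg_re, Complex.ofReal_re, idα, ← hL]
      have key : phy b x r - (r - σ) ^ 2 / (2 * M) - 2 * r * σ / M ≤ σ + M / 2 - κ' := by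
        have p1 : 0 ≤ 2 * r * σ / M := by positivity
        rcases le_or_gt a1 |r - (σ + M)| with hr | hr
        · have := gapy hx hm h1 h2 hκ0.le hκ2 hκ4 ha10 hκ1 hσb hr
          linarith
        · have h3 := majy (r := r) hx hm h1 h2 hκ0.le hκ2 hσb
          have h4 := (abs_lt.1 hr).1
          have h5 : c ≤ 2 * r * σ / M := by
            rw [le_div_iff₀ hM0]
            have h6 : M / 2 ≤ r := by linarith
            have h7 : M / 2 * σ ≤ r * σ := mul_le_mul_of_nonneg_right h6 hσp.le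
            have h8 : c * M ≤ σ * M := mul_le_mul_of_nonneg_right (by linarith) hM0.le
            linarith
          linarith
      have e1 := mul_le_mul_of_nonneg_left key hLp.le
      have e2 : -(r ^ 2 / (4 * τ)) + -α * r = L * (-((r - σ) ^ 2 / (2 * M)) - 2 * r * σ / M + σ ^ 2 / (2 * M)) := by
        rw [hα, hM]
        field_simp
        ring
      rw [e2]
      linarith)
  rw [← hα] at q1 heq
  rw [heq] at q1
  have hHp : 0 < ‖HH (I * T)‖ := by
    have h0 : HH (I * T) ≠ 0 := by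
      apply Pool.Agent.H24R2.JP.StirAux.HH_ne
      simpa using hTp
    exact norm_pos_iff.2 h0
  have a3 := le_of_mul_le_mul_right (q1.trans q2) hHp
  rw [Real.exp_le_exp, ← hL] at a3
  have a4 : 0 < κ' * L := by positivity
  rw [hδ] at a3
  linarith

end Pool.Agent.Q9.ES
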