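import Pool.Agent.W186.LH.UBx
import Pool.Agent.W186.LH.Fin

/-!
# The profile of zeta which corresponds to a strip
(after `Pool.Agent.W186.LH.UBx`)
-/

set_option autoImplicit false

namespace Pool.Agent.Q9.ES

open Complex Filter Topology MeasureTheory Set
open Pool.Agent.H24R2.JP (XX HH Om)
open Pool.Agent.W186.HZ
open Pool.Agent.W186.SN (UB plk)
open Pool.Agent.W186.LH (Ex phx)

/-- the profile: constant up to `b`, then a parabola up to `b + x`, then the identity -/
noncomputable def phy (b x r : ℝ) : ℝ := b + phx x (max (r - b) 0)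

/-- the exponents of zeta to the right of `1/2 + b` -/
def Dy (b x : ℝ) : Prop := ∀ r : ℝ, b ≤ r → r ≤ 1 / 2 → Ex (1 / 2 + r) (max (b + x - r) 0 ^ 2 / (4 * x))

lemma phx_mono {x : ℝ} (hx : 0 < x) {r r' : ℝ} (h0 : 0 ≤ r) (h : r ≤ r') : phx x r ≤ phx x r' := by
  unfold phx
  rcases le_total x r with h1 | h1
  · rw [max_eq_right (by linarith : x - r ≤ 0), max_eq_right (by linarith : x - r' ≤ 0)]
    linarith
  · rw [max_eq_left (by linarith : 0 ≤ x - r)]
    rcases le_total x r' with h2 | h2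
    · rw [max_eq_right (by linarith : x - r' ≤ 0)]
      have : (x - r) ^ 2 / (2 * x) ≤ r' - r := by
        rw [div_le_iff₀ (by positivity)]
        nlinarith
      simp only [ne_eq, OfNat.ofNat_ne_zero, not_false_eq_true, zero_pow, zero_div, add_zero]
      linarith
    · rw [max_eq_left (by linarith : 0 ≤ x - r')]
      have : (x - r) ^ 2 / (2 * x) ≤ (x - r') ^ 2 / (2 * x) + (r' - r) := by
        rw [div_le_iff₀ (by positivity)]
        have e : ((x - r') ^ 2 / (2 * x) + (r' - r)) * (2 * x) = (x - r') ^ 2 + (r' - r) * (2 * x) := by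
          field_simp
        rw [e]
        nlinarith
      linarith

lemma phx_lip {x : ℝ} (hx : 0 < x) {r r' : ℝ} (h : r ≤ r') : phx x r' ≤ phx x r + (r' - r) := by
  unfold phx
  have h9 : max (x - r') 0 ^ 2 / (2 * x) ≤ max (x - r) 0 ^ 2 / (2 * x) := by
    apply div_le_div_of_nonneg_right _ (by positivity)
    apply pow_le_pow_left₀ (le_max_right _ _)
    exact max_le_max (by linarith) le_rfl
  linarith

lemma le_phx {x : ℝ} (hx : 0 < x) (r : ℝ) : r ≤ phx x r := by
  unfold phx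
  have : 0 ≤ max (x - r) 0 ^ 2 / (2 * x) := by positivity
  linarith

lemma phy_mono {b x : ℝ} (hx : 0 < x) {r r' : ℝ} (h : r ≤ r') : phy b x r ≤ phy b x r' := by
  unfold phy
  have := phx_mono hx (le_max_right (r - b) 0) (max_le_max (by linarith : r - b ≤ r' - b) (le_refl (0 : ℝ)))
  linarith

lemma phy_lip {b x : ℝ} (hx : 0 < x) {r r' : ℝ} (h : r ≤ r') : phy b x r' ≤ phy b x r + (r' - r) := by
  unfold phy
  have h1 : max (r - b) 0 ≤ max (r' - b) 0 := max_le_max (by linarith) le_rfl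
  have h2 := phx_lip hx h1
  have h3 : max (r' - b) 0 - max (r - b) 0 ≤ r' - r := by
    have : max (r' - b) 0 ≤ max (r - b) 0 + (r' - r) := by
      apply max_le
      · have := le_max_left (r - b) 0
        linarith
      · have := le_max_right (r - b) 0
        linarith
    linarith
  linarith

lemma le_phy {b x : ℝ} (hx : 0 < x) (r : ℝ) : r ≤ phy b x r := by
  unfold phy
  have h1 := le_phx hx (max (r - b) 0)
  have h2 := le_max_left (r - b) 0
  linarith

lemma uby {b x : ℝ} (hb : 0 ≤ b) (hb2 : b < 1 / 2) (hx : 0 < x) (hx1 : x ≤ 1) (hD : Dy b x) : UB (phy b x) := by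
  intro ε' R hε' hR
  obtain ⟨ε, hε, hεε', hε1⟩ : ∃ ε : ℝ, 0 < ε ∧ ε ≤ ε' ∧ ε ≤ 1 :=
    ⟨min ε' 1, lt_min hε' one_pos, min_le_left _ _, min_le_right _ _⟩
  obtain ⟨N, hN⟩ : ∃ N : ℕ, N = ⌈4 / ε⌉₊ + 1 := ⟨_, rfl⟩
  have hN0 : (0 : ℝ) < N := by rw [hN]; push_cast; positivity
  have hN1 : 4 / ε ≤ N := by
    rw [hN]; push_cast
    have := Nat.le_ceil (4 / ε)
    linarith
  obtain ⟨h, hh⟩ : ∃ h : ℝ, h = (1 / 2 - b) / N := ⟨_, rfl⟩
  have hb3 : 0 < 1 / 2 - b := by linarith
  have hh0 : 0 < h := by rw [hh]; positivity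
  have hh1 : h ≤ ε / 4 := by
    rw [hh, div_le_iff₀ hN0]
    rw [div_le_iff₀ hε] at hN1
    nlinarith
  have hNh : N * h = 1 / 2 - b := by rw [hh]; field_simp
  obtain ⟨T1, hT1, hp⟩ := prof (y := 1 / 2) (by norm_num) le_rfl ct_half (ε / 2) R (by linarith) hR
  have hk : ∀ k ∈ Finset.Icc 1 N, ∀ᶠ T : ℝ in atTop, ∀ u : ℂ, |u.re| ≤ b + k * h → |u.im| ≤ 1 →
      ‖XX (I * T + u)‖ ≤ Real.exp (Om T * (phy b x (b + k * h) + ε / 2)) * ‖HH (I * T)‖ := by
    intro k hk
    rw [Finset.mem_Icc] at hk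
    have k1 : (1 : ℝ) ≤ k := by exact_mod_cast hk.1
    have k2 : (k : ℝ) ≤ N := by exact_mod_cast hk.2
    have e1 : 0 < (k : ℝ) * h := by positivity
    have e2 : (k : ℝ) * h ≤ 1 / 2 - b := by
      rw [← hNh]; gcongr
    obtain ⟨p, hp⟩ : ∃ p : ℝ, p = max (x - k * h) 0 ^ 2 / (4 * x) := ⟨_, rfl⟩
    have hp0 : 0 ≤ p := by rw [hp]; positivity
    have hp1 : p ≤ 1 / 4 := by
      rw [hp, div_le_iff₀ (by positivity)]
      have h1 : max (x - k * h) 0 ≤ x := max_le (by linarith) hx.le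
      have h2 : max (x - k * h) 0 ^ 2 ≤ x ^ 2 := pow_le_pow_left₀ (le_max_right _ _) h1 2
      nlinarith
    obtain ⟨C, hz⟩ := hD (b + k * h) (by linarith) (by linarith) (ε / 8) (by linarith)
    have e3 : b + x - (b + k * h) = x - k * h := by ring
    rw [e3, ← hp] at hz
    obtain ⟨T0, hT0, h0⟩ := plk (b + k * h) (p + ε / 8) (max C 1) (by linarith) (by linarith) (by linarith)
      (by linarith) (lt_of_lt_of_le one_pos (le_max_right _ _)) (by
        intro t ht
        have h3 := hz t (by rw [abs_of_nonneg (by linarith)]; linarith)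
        rw [abs_of_nonneg (by linarith : 0 ≤ t)] at h3
        have e : (1 / 2 + ((b + k * h : ℝ) : ℂ) + t * I) = ((1 / 2 + (b + k * h) : ℝ) : ℂ) + t * I := by
          push_cast; ring
        rw [e]
        refine h3.trans ?_
        exact mul_le_mul_of_nonneg_right (le_max_left _ _) (by positivity)) (ε / 4) (by linarith)
    filter_upwards [eventually_ge_atTop T0] with T hT u hu1 hu2
    refine (h0 T hT u hu1 hu2).trans (le_of_eq ?_)
    congr 3
    unfold phy phx
    have e4 : b + k * h - b = k * h := by ring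
    rw [e4, max_eq_left e1.le, hp]
    field_simp
    ring
  rw [← Filter.eventually_all_finset] at hk
  obtain ⟨T2, hT2⟩ := Filter.eventually_atTop.1 hk
  refine ⟨max T1 T2, hT1.trans (le_max_left _ _), fun T hT u hu0 hu1 hu2 => ?_⟩
  have g1 : T1 ≤ T := (le_max_left _ _).trans hT
  have g2 : T2 ≤ T := (le_max_right _ _).trans hT
  have hOp : 0 ≤ Om T := by
    unfold Om
    have := Real.log_nonneg (show (1 : ℝ) ≤ T by linarith)
    linarith
  have hb' := hp T g1 u hu0 hu1 hu2
  have hmono : ∀ a b : ℝ, a ≤ b → Real.exp (Om T * a) * ‖HH (I * T)‖ ≤ Real.exp (Om T * b) * ‖HH (I * T)‖ := by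
    intro a b hab
    have := Real.exp_le_exp.2 (mul_le_mul_of_nonneg_left hab hOp)
    gcongr
  have hge : u.re ≤ phy b x u.re := le_phy hx _
  rcases le_or_gt (1 / 2) u.re with c1 | c1
  · refine hb'.trans (hmono _ _ ?_)
    rw [max_eq_left c1]; linarith
  · obtain ⟨q, hq⟩ : ∃ q : ℝ, q = max (u.re - b) 0 := ⟨_, rfl⟩
    have hq0' : 0 ≤ q := by rw [hq]; exact le_max_right _ _
    have hq1 : u.re - b ≤ q := by rw [hq]; exact le_max_left _ _
    have hq2 : q < 1 / 2 - b := by rw [hq]; exact max_lt (by linarith) hb3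
    obtain ⟨k, hkd⟩ : ∃ k : ℕ, k = ⌊q / h⌋₊ + 1 := ⟨_, rfl⟩
    have hq0 : 0 ≤ q / h := div_nonneg hq0' hh0.le
    have k1 := Nat.floor_le hq0
    have k2 := Nat.lt_floor_add_one (q / h)
    rw [le_div_iff₀ hh0] at k1
    rw [div_lt_iff₀ hh0] at k2
    have k2' : q ≤ k * h := by rw [hkd]; push_cast; exact k2.le
    have k1' : k * h ≤ q + h := by rw [hkd]; push_cast; linarith
    have k3 : k ∈ Finset.Icc 1 N := by
      rw [Finset.mem_Icc]
      constructor
      · omega
      · have h5 : (⌊q / h⌋₊ : ℝ) * h < N * h := by rw [hNh]; linarith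
        have h6 := lt_of_mul_lt_mul_right h5 hh0.le
        have h7 : ⌊q / h⌋₊ < N := by exact_mod_cast h6
        omega
    refine (hT2 T g2 k k3 u (by rw [abs_of_nonneg hu0]; linarith) hu2).trans (hmono _ _ ?_)
    have h8 : phy b x (b + k * h) ≤ phy b x (b + q) + h := by
      have := phy_lip (b := b) hx (by linarith : b + q ≤ b + k * h)
      linarith
    have h9 : phy b x (b + q) ≤ phy b x u.re := by
      apply le_of_eq
      unfold phy
      have e : b + q - b = q := by ring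
      rw [e, max_eq_left hq0', hq]
    linarith

end Pool.Agent.Q9.ES
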